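import Pool.Agent.OMF.Stmts

set_option autoImplicit false

namespace Pool.Agent.OMF.H89

open Finset Pool.Agent.GTO

/-- expansion of the quadratic form -/
lemma quadExp (e : Fin 6 → ℝ) (u v z : V) (s t w : ℝ) :
    quad e (s • u + t • v + w • z) = s ^ 2 * quad e u + t ^ 2 * quad e v + w ^ 2 * quad e z +
      s * t * ip (tg e u) v + s * w * ip (tg e u) z + t * w * ip (tg e v) z := by
  simp only [quad, ip, tg, Pi.add_apply, Pi.smul_apply, smul_eq_mul, Matrix.cons_val_zero,
    Matrix.cons_val_one, Matrix.cons_val]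
  ring

lemma quadExp2 (e : Fin 6 → ℝ) (u v : V) (s t : ℝ) :
    quad e (s • u + t • v) = s ^ 2 * quad e u + t ^ 2 * quad e v + s * t * ip (tg e u) v := by
  simp only [quad, ip, tg, Pi.add_apply, Pi.smul_apply, smul_eq_mul, Matrix.cons_val_zero,
    Matrix.cons_val_one, Matrix.cons_val]
  ring

lemma tgSymm (e : Fin 6 → ℝ) (u v : V) : ip (tg e u) v = ip (tg e v) u := by
  simp only [ip, tg, Matrix.cons_val_zero, Matrix.cons_val_one, Matrix.cons_val]
  ring

lemma tgSelf (e : Fin 6 → ℝ) (u : V) : ip (tg e u) u = 2 * quad e u := by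
  simp only [quad, ip, tg, Matrix.cons_val_zero, Matrix.cons_val_one, Matrix.cons_val]
  ring

lemma ipCrL (a c : V) : ip a (cr a c) = 0 := by
  simp only [ip, cr, Matrix.cons_val_zero, Matrix.cons_val_one, Matrix.cons_val]
  ring

lemma ipCrR (a c : V) : ip c (cr a c) = 0 := by
  simp only [ip, cr, Matrix.cons_val_zero, Matrix.cons_val_one, Matrix.cons_val]
  ring

lemma binet (x p a c : V) : dt x p (cr a c) = ip a x * ip c p - ip c x * ip a p := by
  simp only [dt, ip, cr, Matrix.cons_val_zero, Matrix.cons_val_one, Matrix.cons_val]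
  ring

lemma dtCyc (x p b : V) : dt x p b = ip p (cr b x) := by
  simp only [dt, ip, cr, Matrix.cons_val_zero, Matrix.cons_val_one, Matrix.cons_val]
  ring

lemma cramer (x p b q : V) : dt x p b • q = dt q p b • x + dt x q b • p + dt x p q • b := by
  funext i
  fin_cases i <;>
    simp only [dt, Pi.add_apply, Pi.smul_apply, smul_eq_mul, Fin.zero_eta, Fin.mk_one,
      Fin.reduceFinMk] <;> ring

theorem par : ParStmt := by
  intro e x P0 hN hx hP0 hcr
  have hb : ip (tg e x) P0 ≠ 0 := by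
    obtain ⟨s, t, h⟩ := hN x P0 hcr
    intro h0
    apply h
    rw [quadExp2, hx, hP0, h0]
    ring
  have hxx : ip (tg e x) x = 0 := by rw [tgSelf, hx, mul_zero]
  have hpp : ip (tg e P0) P0 = 0 := by rw [tgSelf, hP0, mul_zero]
  have hD : dt x P0 (cr (tg e x) (tg e P0)) ≠ 0 := by
    rw [binet, hxx, hpp, tgSymm e P0 x]
    simp only [mul_zero, zero_sub, ne_eq, neg_eq_zero, mul_self_eq_zero]
    exact hb
  obtain ⟨B, hB⟩ : ∃ B : V, B = cr (tg e x) (tg e P0) := ⟨_, rfl⟩
  rw [← hB] at hD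
  have hxB : ip (tg e x) B = 0 := by rw [hB]; exact ipCrL _ _
  have hPB : ip (tg e P0) B = 0 := by rw [hB]; exact ipCrR _ _
  have hq : quad e B ≠ 0 := by
    have h1 : cr B x ≠ 0 := by
      intro h
      apply hD
      rw [dtCyc, h]
      simp [ip]
    obtain ⟨s, t, h⟩ := hN B x h1
    intro h0
    apply h
    rw [quadExp2, hx, h0, tgSymm, hxB]
    ring
  refine ⟨P0, B, -(quad e B) / ip (tg e x) P0, ?_, hD, hb, hxB, hxx, ?_⟩
  · exact div_ne_zero (neg_ne_zero.mpr hq) hb
  · intro P hP hxP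
    have hc := cramer x P0 B P
    obtain ⟨s, t, u, hs⟩ : ∃ s t u : ℝ, P = s • P0 + t • B + u • x := by
      refine ⟨(dt x P0 B)⁻¹ * dt x P B, (dt x P0 B)⁻¹ * dt x P0 P, (dt x P0 B)⁻¹ * dt P P0 B, ?_⟩
      funext i
      have h3 := congrFun hc i
      simp only [Pi.add_apply, Pi.smul_apply, smul_eq_mul] at h3 ⊢
      rw [mul_assoc, mul_assoc, mul_assoc, ← mul_add, ← mul_add, eq_inv_mul_iff_mul_eq₀ hD]
      linarith
    have hquad : t ^ 2 * quad e B + s * u * ip (tg e x) P0 = 0 := by
      have h3 := hP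
      rw [hs, quadExp, hP0, hx, hPB, tgSymm e P0 x, tgSymm e B x, hxB] at h3
      linarith
    have hs0 : s ≠ 0 := by
      intro h0
      rw [h0] at hquad
      have ht : t = 0 := by
        have h4 : t ^ 2 * quad e B = 0 := by linarith
        rcases mul_eq_zero.mp h4 with h5 | h5
        · exact pow_eq_zero_iff (two_ne_zero) |>.mp h5
        · exact absurd h5 hq
      apply hxP
      rw [hs, h0, ht]
      funext i
      fin_cases i <;> simp [cr] <;> ring
    refine ⟨s, t / s, hs0, ?_⟩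
    have hu : u = s * (-(quad e B) / ip (tg e x) P0 * (t / s) ^ 2) := by
      field_simp
      linarith
    rw [smul_add, smul_add, smul_smul, smul_smul, ← hu, mul_div_cancel₀ _ hs0]
    exact hs

end Pool.Agent.OMF.H89
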